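import Pool.Agent.Helper94_Rad.Stmt

/-!
# SQS: the small part is almost squarefree
-/

namespace Pool.Agent.RAD.H41

open Pool.Agent.RAD

/-- A number larger than `Z` all of whose primes are at most `Z` has a divisor in `(Z, Z ^ 2]`. -/
theorem exists_dvd_between (Z : ℕ) (hZ : 1 ≤ Z) : ∀ n : ℕ, Z < n →
    (∀ p : ℕ, p.Prime → p ∣ n → p ≤ Z) → ∃ t : ℕ, t ∣ n ∧ Z < t ∧ t ≤ Z ^ 2 := by
  intro n
  induction n using Nat.strong_induction_on with
  | _ n ih =>
    intro hn hp
    by_cases h : n ≤ Z ^ 2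
    · exact ⟨n, dvd_rfl, hn, h⟩
    push Not at h
    have hn1 : n ≠ 1 := by omega
    obtain ⟨p, hpp, hpn⟩ := Nat.exists_prime_and_dvd hn1
    have hpZ := hp p hpp hpn
    obtain ⟨k, rfl⟩ := hpn
    have hk : Z < k := by
      by_contra hk
      push Not at hk
      have : p * k ≤ Z * Z := Nat.mul_le_mul hpZ hk
      have h2 : Z ^ 2 = Z * Z := by ring
      omega
    have hk0 : 0 < k := by omega
    have hlt : k < p * k := by
      have : 2 * k ≤ p * k := Nat.mul_le_mul_right k hpp.two_le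
      omega
    obtain ⟨t, ht1, ht2, ht3⟩ := ih k hlt hk (fun q hq hqk => hp q hq (hqk.mul_left p))
    exact ⟨t, ht1.mul_left p, ht2, ht3⟩

theorem sqs : SqsStmt := by
  intro K H m Z hm hZ hZH h1 h2
  set P := smallPrimes K H m with hP
  have hPsub : P ⊆ m.primeFactors := Finset.filter_subset _ _
  have hPmem : ∀ p ∈ P, p.Prime ∧ ¬ p ∣ K ∧ p ≤ H := by
    intro p hp
    have := Finset.mem_filter.1 hp
    exact ⟨Nat.prime_of_mem_primeFactors this.1, this.2.1, this.2.2⟩
  set T : ℕ := ∏ p ∈ P, p ^ (m.factorization p / 2) with hT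
  have hT2 : T ^ 2 ∣ m := by
    have h3 : T ^ 2 = ∏ p ∈ P, p ^ (m.factorization p / 2 * 2) := by
      rw [hT, ← Finset.prod_pow]
      refine Finset.prod_congr rfl fun p _ => ?_
      rw [← pow_mul]
    have h4 : T ^ 2 ∣ ∏ p ∈ P, p ^ m.factorization p := by
      rw [h3]
      refine Finset.prod_dvd_prod_of_dvd _ _ fun p _ => pow_dvd_pow p (Nat.div_mul_le_self _ _)
    have h5 : (∏ p ∈ P, p ^ m.factorization p) ∣ ∏ p ∈ m.primeFactors, p ^ m.factorization p :=
      Finset.prod_dvd_prod_of_subset _ _ _ hPsub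
    have h6 : ∏ p ∈ m.primeFactors, p ^ m.factorization p = m := by
      have := Nat.prod_factorization_pow_eq_self (n := m) (by omega)
      rw [Finsupp.prod, Nat.support_factorization] at this
      exact this
    rw [h6] at h5
    exact h4.trans h5
  have hTK : Nat.Coprime T K := by
    rw [hT]
    refine Nat.Coprime.prod_left fun p hp => ?_
    exact Nat.Coprime.pow_left _ ((hPmem p hp).1.coprime_iff_not_dvd.2 (hPmem p hp).2.1)
  have hle : smallPart K H m ≤ T ^ 2 * smallRad K H m := by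
    have h3 : T ^ 2 = ∏ p ∈ P, p ^ (m.factorization p / 2 * 2) := by
      rw [hT, ← Finset.prod_pow]
      refine Finset.prod_congr rfl fun p _ => ?_
      rw [← pow_mul]
    rw [h3, smallPart, smallRad, ← hP, ← Finset.prod_mul_distrib]
    refine Finset.prod_le_prod' fun p hp => ?_
    rw [← pow_succ]
    exact Nat.pow_le_pow_right (hPmem p hp).1.pos (by omega)
  have hTZ : T ≤ Z := by
    by_contra hcon
    push Not at hcon
    have hprimes : ∀ p : ℕ, p.Prime → p ∣ T → p ≤ Z := by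
      intro p hp hpT
      by_contra hpZ
      push Not at hpZ
      obtain ⟨q, hq, hpq⟩ := (hp.prime.dvd_finsetProd_iff _).1 hpT
      have hqp := (hPmem q hq).1
      have hpq' : p ∣ q := hp.dvd_of_dvd_pow hpq
      have hEq : p = q := (Nat.prime_dvd_prime_iff_eq hp hqp).1 hpq'
      subst hEq
      have hp2 : p ^ 2 ∣ m := (pow_dvd_pow_of_dvd hpT 2).trans hT2
      have hpH : p ^ 2 ≤ H := by
        by_contra h
        push Not at h
        exact h2 p hp (hPmem p hq).2.2 h (hPmem p hq).2.1 hp2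
      exact h1 p hpZ hpH (hp.coprime_iff_not_dvd.2 (hPmem p hq).2.1) hp2
    obtain ⟨t, ht1, ht2, ht3⟩ := exists_dvd_between Z hZ T hcon hprimes
    refine h1 t ht2 ?_ (Nat.Coprime.coprime_dvd_left ht1 hTK) ((pow_dvd_pow_of_dvd ht1 2).trans hT2)
    calc t ^ 2 ≤ (Z ^ 2) ^ 2 := Nat.pow_le_pow_left ht3 2
      _ = Z ^ 4 := by ring
      _ ≤ H := hZH
  calc smallPart K H m ≤ T ^ 2 * smallRad K H m := hle
    _ ≤ Z ^ 2 * smallRad K H m := Nat.mul_le_mul_right _ (Nat.pow_le_pow_left hTZ 2)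

end Pool.Agent.RAD.H41
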