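import Pool.Agent.Helper94_Rad.Stmt

/-!
# SHP: the shapes of a value with a small radical outside `K`
-/

namespace Pool.Agent.RAD.H41

open Pool.Agent.RAD Polynomial
open Helper5Frey (partRad)

/-- Upper bound for the values. -/
theorem eval_bound {D B H : ℕ} {R : ℤ[X]} (hdeg : R.natDegree = D)
    (hcoef : ∀ i, |R.coeff i| ≤ (H : ℤ) ^ B) (hH : 1 ≤ H) {c : ℤ} (hc : |c| ≤ (H : ℤ)) :
    (R.eval c).natAbs ≤ (D + 1) * H ^ (B + D) := by
  have hHZ : (1 : ℤ) ≤ H := by exact_mod_cast hH
  have h1 : |R.eval c| ≤ ((D + 1 : ℕ) : ℤ) * (H : ℤ) ^ (B + D) := by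
    rw [Polynomial.eval_eq_sum_range, hdeg]
    calc |∑ i ∈ Finset.range (D + 1), R.coeff i * c ^ i|
        ≤ ∑ i ∈ Finset.range (D + 1), |R.coeff i * c ^ i| := Finset.abs_sum_le_sum_abs _ _
      _ ≤ ∑ _i ∈ Finset.range (D + 1), (H : ℤ) ^ (B + D) := by
          refine Finset.sum_le_sum fun i hi => ?_
          have hi' : i ≤ D := by
            have := Finset.mem_range.1 hi
            omega
          rw [abs_mul, abs_pow, pow_add]
          refine mul_le_mul (hcoef i) ?_ (by positivity) (by positivity)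
          calc |c| ^ i ≤ (H : ℤ) ^ i := pow_le_pow_left₀ (abs_nonneg c) hc i
            _ ≤ (H : ℤ) ^ D := pow_le_pow_right₀ hHZ hi'
      _ = ((D + 1 : ℕ) : ℤ) * (H : ℤ) ^ (B + D) := by
          rw [Finset.sum_const, Finset.card_range, nsmul_eq_mul]
  have h2 : ((R.eval c).natAbs : ℤ) = |R.eval c| := Int.natCast_natAbs _
  have h3 : ((R.eval c).natAbs : ℤ) ≤ (((D + 1) * H ^ (B + D) : ℕ) : ℤ) := by
    rw [h2]
    push_cast at h1 ⊢
    exact h1
  exact_mod_cast h3

/-- The primes larger than `H` which divide `m` and do not divide `K`. -/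
def largePrimes (K H m : ℕ) : Finset ℕ :=
  m.primeFactors.filter (fun p => ¬ p ∣ K ∧ ¬ p ≤ H)

/-- The part of `m` composed of primes of `K`. -/
def kPart (K m : ℕ) : ℕ := ∏ p ∈ m.primeFactors.filter (fun p => p ∣ K), p ^ m.factorization p

theorem split_prod (K H m : ℕ) (f : ℕ → ℕ) :
    ∏ p ∈ m.primeFactors.filter (fun p => ¬ p ∣ K), f p =
      (∏ p ∈ smallPrimes K H m, f p) * ∏ p ∈ largePrimes K H m, f p := by
  rw [← Finset.prod_filter_mul_prod_filter_not (m.primeFactors.filter (fun p => ¬ p ∣ K))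
    (fun p => p ≤ H), Finset.filter_filter, Finset.filter_filter]
  rfl

theorem partRad_split (K H m : ℕ) :
    partRad K m = smallRad K H m * ∏ p ∈ largePrimes K H m, p :=
  split_prod K H m (fun p => p)

theorem self_split {K H m : ℕ} (hm : m ≠ 0) :
    m = kPart K m * smallPart K H m * ∏ p ∈ largePrimes K H m, p ^ m.factorization p := by
  have h6 : ∏ p ∈ m.primeFactors, p ^ m.factorization p = m := by
    have := Nat.prod_factorization_pow_eq_self (n := m) hm
    rw [Finsupp.prod, Nat.support_factorization] at this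
    exact this
  have h7 := Finset.prod_filter_mul_prod_filter_not m.primeFactors (fun p => p ∣ K)
    (fun p => p ^ m.factorization p)
  rw [h6, split_prod K H m (fun p => p ^ m.factorization p)] at h7
  rw [kPart, smallPart, mul_assoc]
  exact h7.symm

theorem kPart_primeFactors {K m : ℕ} (hK : K ≠ 0) : (kPart K m).primeFactors ⊆ K.primeFactors := by
  intro q hq
  have hqp := Nat.prime_of_mem_primeFactors hq
  have hqd := Nat.dvd_of_mem_primeFactors hq
  obtain ⟨p, hp, hqp'⟩ := (hqp.prime.dvd_finsetProd_iff _).1 hqd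
  have hp' := Finset.mem_filter.1 hp
  have hpp := Nat.prime_of_mem_primeFactors hp'.1
  have : q = p := (Nat.prime_dvd_prime_iff_eq hqp hpp).1 (hqp.dvd_of_dvd_pow hqp')
  subst this
  exact Nat.mem_primeFactors.2 ⟨hqp, hp'.2, hK⟩

theorem smallPart_coprime {K H m : ℕ} : Nat.Coprime (smallPart K H m) K := by
  rw [smallPart]
  refine Nat.Coprime.prod_left fun p hp => ?_
  have hp' := Finset.mem_filter.1 hp
  exact Nat.Coprime.pow_left _
    ((Nat.prime_of_mem_primeFactors hp'.1).coprime_iff_not_dvd.2 hp'.2.1)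

theorem smallPart_pos {K H m : ℕ} : 1 ≤ smallPart K H m := by
  rw [smallPart]
  exact Finset.prod_pos fun p hp =>
    pow_pos (Nat.prime_of_mem_primeFactors (Finset.mem_filter.1 hp).1).pos _

theorem smallRad_pos {K H m : ℕ} : 1 ≤ smallRad K H m := by
  rw [smallRad]
  exact Finset.prod_pos fun p hp =>
    (Nat.prime_of_mem_primeFactors (Finset.mem_filter.1 hp).1).pos

theorem kPart_pos {K m : ℕ} : 1 ≤ kPart K m := by
  rw [kPart]
  exact Finset.prod_pos fun p hp =>
    pow_pos (Nat.prime_of_mem_primeFactors (Finset.mem_filter.1 hp).1).pos _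

theorem shp (hnlb : NlbStmt) : ShpStmt := by
  intro D B ε hD hε0 hε1
  refine ⟨D + 2, ?_⟩
  intro H hH R K hG c hc hRc hNear hsmall hrad
  set m : ℕ := (R.eval c).natAbs with hm
  have hm0 : m ≠ 0 := by rw [hm]; exact Int.natAbs_ne_zero.2 hRc
  have hH1 : 1 ≤ H := by omega
  have hHR : (1 : ℝ) ≤ H := by exact_mod_cast hH1
  have hHpos : (0 : ℝ) < H := by linarith
  have hK0 : K ≠ 0 := by have := hG.one_le; omega
  -- upper bound
  have hmub : m ≤ H ^ (B + D + 1) := by
    calc m ≤ (D + 1) * H ^ (B + D) := eval_bound hG.deg hG.coef hH1 hc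
      _ ≤ H * H ^ (B + D) := Nat.mul_le_mul_right _ (by omega)
      _ = H ^ (B + D + 1) := by ring
  set u := kPart K m with hu
  set v := smallPart K H m with hv
  set s := smallRad K H m with hs
  set W := largePrimes K H m with hW
  have hsplit : m = u * v * ∏ p ∈ W, p ^ m.factorization p := self_split hm0
  have hrsplit : partRad K m = s * ∏ p ∈ W, p := partRad_split K H m
  have hWmem : ∀ p ∈ W, p.Prime ∧ H < p ∧ 1 ≤ m.factorization p := by
    intro p hp
    have hp' := Finset.mem_filter.1 hp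
    have hpp := Nat.prime_of_mem_primeFactors hp'.1
    have hpd := Nat.dvd_of_mem_primeFactors hp'.1
    refine ⟨hpp, not_le.1 hp'.2.2, ?_⟩
    exact (hpp.dvd_iff_one_le_factorization hm0).1 hpd
  have hupos : 1 ≤ u := kPart_pos
  have hvpos : 1 ≤ v := smallPart_pos
  have hspos : 1 ≤ s := smallRad_pos
  have hudvd : u ∣ m := by
    rw [hsplit, mul_assoc]
    exact dvd_mul_right _ _
  refine ⟨u, hupos, (Nat.le_of_dvd (by omega) hudvd).trans hmub, kPart_primeFactors hK0, ?_⟩
  have hradR : (s : ℝ) * ((∏ p ∈ W, p : ℕ) : ℝ) ≤ (H : ℝ) ^ (2 - ε) := by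
    have : ((partRad K m : ℕ) : ℝ) ≤ (H : ℝ) ^ (2 - ε) := hrad
    rw [hrsplit] at this
    push_cast at this ⊢
    exact this
  have hsmallR : (v : ℝ) ≤ (H : ℝ) ^ (ε / 2) * (s : ℝ) := hsmall
  by_cases hcase : ∀ q ∈ W, m.factorization q ≤ 1
  · -- the part outside `K` is small
    left
    constructor
    · have : (u : ℤ) ∣ (m : ℤ) := by exact_mod_cast hudvd
      rw [hm] at this
      exact Int.dvd_natAbs.1 this
    · have hw : ∏ p ∈ W, p ^ m.factorization p = ∏ p ∈ W, p := by
        refine Finset.prod_congr rfl fun p hp => ?_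
        have h1 := hcase p hp
        have h2 := (hWmem p hp).2.2
        have h3 : m.factorization p = 1 := by omega
        rw [h3, pow_one]
      have hmle : (m : ℝ) ≤ (u : ℝ) * (H : ℝ) ^ (2 - ε / 2) := by
        have h1 : (m : ℝ) = (u : ℝ) * (v : ℝ) * ((∏ p ∈ W, p : ℕ) : ℝ) := by
          have h2 := hsplit
          rw [hw] at h2
          exact_mod_cast h2
        have hP0 : (0 : ℝ) ≤ ((∏ p ∈ W, p : ℕ) : ℝ) := Nat.cast_nonneg _
        have hu0 : (0 : ℝ) ≤ (u : ℝ) := Nat.cast_nonneg _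
        have hE0 : (0 : ℝ) ≤ (H : ℝ) ^ (ε / 2) := by positivity
        calc (m : ℝ) = (u : ℝ) * ((v : ℝ) * ((∏ p ∈ W, p : ℕ) : ℝ)) := by rw [h1]; ring
          _ ≤ (u : ℝ) * (((H : ℝ) ^ (ε / 2) * (s : ℝ)) * ((∏ p ∈ W, p : ℕ) : ℝ)) := by gcongr
          _ = (u : ℝ) * ((H : ℝ) ^ (ε / 2) * ((s : ℝ) * ((∏ p ∈ W, p : ℕ) : ℝ))) := by ring
          _ ≤ (u : ℝ) * ((H : ℝ) ^ (ε / 2) * (H : ℝ) ^ (2 - ε)) := by gcongr
          _ = (u : ℝ) * (H : ℝ) ^ (2 - ε / 2) := by
              rw [← Real.rpow_add hHpos]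
              congr 2
              ring
      have hDR : (4 : ℝ) ≤ D := by exact_mod_cast hD
      have hD0 : (0 : ℝ) < D := by linarith
      have hR0 : R ≠ 0 := by
        rintro rfl
        simp at hRc
      have hlow := hnlb R D ((H : ℝ) ^ (1 - ε / (16 * D))) c hG.deg hR0 (by positivity) hNear
      have hpow : ((H : ℝ) ^ (1 - ε / (16 * D))) ^ D = (H : ℝ) ^ ((D : ℝ) - ε / 16) := by
        rw [← Real.rpow_natCast, ← Real.rpow_mul hHpos.le]
        congr 1
        field_simp
      have habs : |((R.eval c : ℤ) : ℝ)| = (m : ℝ) := by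
        rw [hm, ← Int.cast_abs, Int.abs_eq_natAbs]
        simp
      have hlc : |(R.leadingCoeff : ℝ)| = (R.leadingCoeff.natAbs : ℝ) := by
        rw [← Int.cast_abs, Int.abs_eq_natAbs]
        simp
      rw [hpow, habs, hlc] at hlow
      have hchain : (R.leadingCoeff.natAbs : ℝ) * H * (H : ℝ) ^ (2 - ε / 2) ≤
          (u : ℝ) * (H : ℝ) ^ (2 - ε / 2) := by
        calc (R.leadingCoeff.natAbs : ℝ) * H * (H : ℝ) ^ (2 - ε / 2)
            = (R.leadingCoeff.natAbs : ℝ) * (H : ℝ) ^ (3 - ε / 2) := by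
              rw [mul_assoc]
              congr 1
              rw [← Real.rpow_one_add' hHpos.le (by linarith)]
              congr 1
              ring
          _ ≤ (R.leadingCoeff.natAbs : ℝ) * (H : ℝ) ^ ((D : ℝ) - ε / 16) := by
              refine mul_le_mul_of_nonneg_left ?_ (Nat.cast_nonneg _)
              exact Real.rpow_le_rpow_of_exponent_le hHR (by linarith)
          _ ≤ (m : ℝ) := hlow
          _ ≤ _ := hmle
      have hfin : (R.leadingCoeff.natAbs : ℝ) * H ≤ (u : ℝ) :=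
        le_of_mul_le_mul_right hchain (by positivity)
      exact_mod_cast hfin
  · right
    push Not at hcase
    obtain ⟨q, hqW, hqe⟩ := hcase
    have hq := hWmem q hqW
    have hqR : (H : ℝ) < q := by exact_mod_cast hq.2.1
    have hPpos : ∀ p ∈ W, 1 ≤ p := fun p hp => (hWmem p hp).1.pos
    -- `W = {q}`
    have hWq : W = {q} := by
      rw [Finset.eq_singleton_iff_unique_mem]
      refine ⟨hqW, ?_⟩
      intro p hp
      by_contra hpq
      have hsub : ({p, q} : Finset ℕ) ⊆ W := by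
        intro x hx
        rw [Finset.mem_insert, Finset.mem_singleton] at hx
        rcases hx with rfl | rfl
        · exact hp
        · exact hqW
      have hle : p * q ≤ ∏ x ∈ W, x := by
        have h1 : ∏ x ∈ ({p, q} : Finset ℕ), x = p * q := Finset.prod_pair hpq
        rw [← h1]
        exact Finset.prod_le_prod_of_subset_of_one_le' hsub (fun i hi _ => hPpos i hi)
      have hpR : (H : ℝ) < p := by exact_mod_cast (hWmem p hp).2.1
      have h2 : (H : ℝ) * H < (p : ℝ) * q := mul_lt_mul'' hpR hqR hHpos.le hHpos.le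
      have h3 : (p : ℝ) * q ≤ ((∏ x ∈ W, x : ℕ) : ℝ) := by exact_mod_cast hle
      have h4 : ((∏ x ∈ W, x : ℕ) : ℝ) ≤ (s : ℝ) * ((∏ p ∈ W, p : ℕ) : ℝ) := by
        have : (1 : ℝ) ≤ s := by exact_mod_cast hspos
        exact le_mul_of_one_le_left (Nat.cast_nonneg _) this
      have h5 : (H : ℝ) ^ (2 - ε) ≤ (H : ℝ) * H := by
        calc (H : ℝ) ^ (2 - ε) ≤ (H : ℝ) ^ (2 : ℝ) :=
              Real.rpow_le_rpow_of_exponent_le hHR (by linarith)
          _ = (H : ℝ) * H := by
              rw [Real.rpow_two]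
              ring
      linarith
    set e := m.factorization q with he
    have hprodW : ∏ p ∈ W, p ^ m.factorization p = q ^ e := by
      rw [hWq, Finset.prod_singleton]
    have hprodW' : ∏ p ∈ W, p = q := by
      rw [hWq, Finset.prod_singleton]
    rw [hprodW] at hsplit
    rw [hprodW'] at hradR
    have hqpos : (0 : ℝ) < q := lt_trans hHpos hqR
    obtain ⟨σ, hσ, hσe⟩ : ∃ σ : ℤ, (σ = 1 ∨ σ = -1) ∧ R.eval c = σ * (m : ℤ) := by
      rcases Int.natAbs_eq (R.eval c) with h | h
      · exact ⟨1, Or.inl rfl, by rw [one_mul]; exact h⟩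
      · exact ⟨-1, Or.inr rfl, by rw [neg_one_mul]; exact h⟩
    refine ⟨v, q, e, σ, hvpos, smallPart_coprime, ?_, hq.1.pos, hqe, ?_, hσ, ?_⟩
    · -- `v ≤ H ^ (1 - ε / 2)`
      have h1 : (s : ℝ) * H ≤ (H : ℝ) ^ (2 - ε) := by
        have : (s : ℝ) * H ≤ (s : ℝ) * q := by gcongr
        linarith
      have h2 : (s : ℝ) ≤ (H : ℝ) ^ (1 - ε) := by
        have h3 : (H : ℝ) ^ (2 - ε) = (H : ℝ) ^ (1 - ε) * H := by
          rw [← Real.rpow_add_one' hHpos.le (by linarith)]
          congr 1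
          ring
        rw [h3] at h1
        exact le_of_mul_le_mul_right h1 hHpos
      calc (v : ℝ) ≤ (H : ℝ) ^ (ε / 2) * (s : ℝ) := hsmallR
        _ ≤ (H : ℝ) ^ (ε / 2) * (H : ℝ) ^ (1 - ε) := by gcongr
        _ = (H : ℝ) ^ (1 - ε / 2) := by
            rw [← Real.rpow_add hHpos]
            congr 1
            ring
    · -- `e ≤ B + D + 1`
      by_contra hcon
      push Not at hcon
      have h1 : H ^ e < q ^ e := Nat.pow_lt_pow_left hq.2.1 (by omega)
      have h2 : q ^ e ≤ m := by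
        refine Nat.le_of_dvd (by omega) ?_
        rw [hsplit]
        exact dvd_mul_left _ _
      have h3 : H ^ (B + D + 1) ≤ H ^ e := Nat.pow_le_pow_right hH1 hcon.le
      omega
    · rw [hσe]
      conv_lhs => rw [hsplit]
      push_cast
      ring

end Pool.Agent.RAD.H41
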